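import Pool.Agent.H43.TC.Targets2
import Pool.Agent.H43.TC.FIN

/-!
# The point `(1, 1)` of the achievable region
-/

set_option autoImplicit false

namespace Pool.Agent.H71.TE

open Pool.Agent.H43.TC

theorem walks_true_zero {G : Type} [AddCommGroup G] {k : ℕ} (s : Fin k → G) (t : ℕ) (x : G) :
    walks s (fun _ => false) true t x = 0 := by
  cases t <;> simp [walks]

theorem walks_false_pow {G : Type} [AddCommGroup G] {k : ℕ} (s : Fin k → G) (t : ℕ) (x : G) :
    walks s (fun _ => false) false t x = (2 * k) ^ t := by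
  induction t generalizing x with
  | zero => simp [walks]
  | succ t ih =>
    rw [walks, if_pos rfl]
    simp only [ih]
    rw [Finset.sum_const, Finset.card_univ, Fintype.card_fin, smul_eq_mul, pow_succ]
    ring

/-- ONE -/
theorem one : T_ONE := by
  intro k t hk
  have h := lin' k 1 t ⟨0, hk⟩ (fun _ => 0) (fun b => ⟨0, Subsingleton.elim _ _⟩)
    (fun _ => false) 0 0 ((2 * k) ^ t) (by simp) (by omega) (by omega)
    (by simp only [walks_true_zero, Finset.sum_const_zero])
    (by simp only [walks_false_pow]; simp)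
  have hk' : (0 : ℝ) < (2 * k : ℝ) ^ t := by positivity
  have e1 : ((((0 : ℕ) : ℝ) / (2 * k : ℝ) ^ t + ((1 : ℕ) : ℝ) - 2 * ((0 : ℕ) : ℝ)) /
      (((1 : ℕ) : ℝ) - ((0 : ℕ) : ℝ)), (((((2 * k) ^ t : ℕ) : ℝ) / (2 * k : ℝ) ^ t) /
        (((1 : ℕ) : ℝ) - ((0 : ℕ) : ℝ)))) = ((1 : ℝ), (1 : ℝ)) := by
    push_cast
    rw [div_self hk'.ne']
    simp
  rw [← e1]
  exact h

end Pool.Agent.H71.TE
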